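import Pool.Agent.Helper33.IR.Goals

/-! # Packet IR-DIST -/

set_option autoImplicit false

namespace Pool.Agent.Helper43.IR

open Pool.Agent.Helper33.IR

theorem exp_lin (b m : ℕ) : Real.exp (lin b m) = (3 : ℝ) ^ b / 4 ^ m := by
  unfold lin
  have h3 : Real.exp ((b : ℝ) * Real.log 3) = 3 ^ b := by
    rw [Real.exp_nat_mul, Real.exp_log (by norm_num)]
  have h4 : Real.exp ((m : ℝ) * Real.log 4) = 4 ^ m := by
    rw [Real.exp_nat_mul, Real.exp_log (by norm_num)]
  rw [Int.cast_natCast, Int.cast_natCast, Real.exp_sub, h3, h4]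

theorem W_pos (b m : ℕ) (h0 : 0 < lin b m) (h1 : lin b m < 1 / 10) : W b = 3 / 4 := by
  have hE := exp_lin b m
  have hp : (0 : ℝ) < 4 ^ m := by positivity
  have a1 : (1 : ℝ) < 3 ^ b / 4 ^ m := by rw [← hE]; exact Real.one_lt_exp_iff.2 h0
  have a2 : (3 : ℝ) ^ b / 4 ^ m < 5 / 4 := by
    rw [← hE]
    have h := Real.add_one_le_exp (-(lin b m))
    rw [Real.exp_neg] at h
    have hpos := Real.exp_pos (lin b m)
    have h9 : (9 : ℝ) / 10 < (Real.exp (lin b m))⁻¹ := by linarith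
    have h10 : Real.exp (lin b m) < (9 / 10 : ℝ)⁻¹ := by
      rw [lt_inv_comm₀ hpos (by norm_num)]; exact h9
    refine h10.trans (by norm_num)
  rw [lt_div_iff₀ hp] at a1
  rw [div_lt_iff₀ hp] at a2
  have b1 : 4 ^ m < 3 ^ b := by
    have : ((4 : ℕ) : ℝ) ^ m < ((3 : ℕ) : ℝ) ^ b := by push_cast; linarith
    exact_mod_cast this
  have b2 : 4 * 3 ^ b < 5 * 4 ^ m := by
    have : (4 : ℝ) * 3 ^ b < 5 * 4 ^ m := by linarith
    exact_mod_cast this
  have hlog : Nat.log 4 (3 ^ b) = m :=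
    Nat.log_eq_of_pow_le_of_lt_pow b1.le (by rw [pow_succ]; omega)
  unfold W rr
  rw [hlog]
  have hq : (0 : ℚ) < 4 ^ m := by positivity
  have c1 : (1 : ℚ) < 3 ^ b / 4 ^ m := by
    rw [lt_div_iff₀ hq, one_mul]; exact_mod_cast b1
  have c2 : (3 : ℚ) ^ b / 4 ^ m ≤ 5 / 4 := by
    rw [div_le_iff₀ hq]
    have : (4 : ℚ) * 3 ^ b < 5 * 4 ^ m := by exact_mod_cast b2
    linarith
  unfold om
  rw [if_pos (by linarith), if_neg (by intro h; linarith), if_neg (by rintro ⟨h, _⟩; linarith),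
    if_pos ⟨c1, c2⟩]
  norm_num

theorem W_neg (b m : ℕ) (h0 : lin b m < 0) (h1 : -(1 / 10) < lin b m) : W b = -1 := by
  have hE := exp_lin b m
  have hp : (0 : ℝ) < 4 ^ m := by positivity
  have a1 : (3 : ℝ) ^ b / 4 ^ m < 1 := by rw [← hE]; exact Real.exp_lt_one_iff.2 h0
  have a2 : (1 : ℝ) / 2 < 3 ^ b / 4 ^ m := by
    rw [← hE]
    have h := Real.add_one_le_exp (lin b m)
    linarith
  rw [div_lt_iff₀ hp] at a1
  rw [lt_div_iff₀ hp] at a2
  have b1 : 3 ^ b < 4 ^ m := by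
    have : ((3 : ℕ) : ℝ) ^ b < ((4 : ℕ) : ℝ) ^ m := by push_cast; linarith
    exact_mod_cast this
  have b2 : 4 ^ m < 2 * 3 ^ b := by
    have : (4 : ℝ) ^ m < 2 * 3 ^ b := by linarith
    exact_mod_cast this
  obtain ⟨k, rfl⟩ : ∃ k, m = k + 1 := by
    rcases m with _ | k
    · have := Nat.one_le_pow b 3 (by norm_num)
      rw [pow_zero] at b1
      omega
    · exact ⟨k, rfl⟩
  rw [pow_succ] at b1 b2
  have hlog : Nat.log 4 (3 ^ b) = k :=
    Nat.log_eq_of_pow_le_of_lt_pow (by omega) (by rw [pow_succ]; exact b1)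
  unfold W rr
  rw [hlog]
  have hq : (0 : ℚ) < 4 ^ k := by positivity
  have c1 : (2 : ℚ) < 3 ^ b / 4 ^ k := by
    rw [lt_div_iff₀ hq]
    have : (4 : ℚ) ^ k * 4 < 2 * 3 ^ b := by exact_mod_cast b2
    linarith
  unfold om
  rw [if_neg (by intro h; linarith), if_pos c1, if_neg (by rintro ⟨_, h⟩; linarith),
    if_neg (by rintro ⟨_, h⟩; linarith)]
  norm_num

/-- packet DIST -/
theorem gDIST : G_DIST := by
  intro q p q' p' h
  have hb := h.better
  have ho := h.opp
  have hs := h.small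
  have hadd : lin ((q' + q : ℕ) : ℤ) ((p' + p : ℕ) : ℤ) = lin q' p' + lin q p := by
    unfold lin; push_cast; ring
  rw [abs_lt] at hs
  have hb1 := (abs_lt.1 (hb.trans h.small))
  rcases lt_or_ge 0 (lin q' p') with h0 | h0
  · have hq : lin q p < 0 := by
      by_contra hc
      push Not at hc
      have := mul_nonneg hc h0.le
      linarith
    rw [abs_of_pos h0, abs_of_neg hq] at hb
    rw [W_pos q' p' h0 (by linarith [hb1.2]), W_neg (q' + q) (p' + p) (by rw [hadd]; linarith)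
      (by rw [hadd]; linarith [hs.1])]
    norm_num
  · have h0' : lin q' p' < 0 := by
      rcases h0.lt_or_eq with h1 | h1
      · exact h1
      · rw [h1, mul_zero] at ho; exact absurd ho (lt_irrefl _)
    have hq : 0 < lin q p := by
      by_contra hc
      push Not at hc
      have := mul_nonneg_of_nonpos_of_nonpos hc h0
      linarith
    rw [abs_of_neg h0', abs_of_pos hq] at hb
    rw [W_neg q' p' h0' (by linarith [hb1.1]), W_pos (q' + q) (p' + p) (by rw [hadd]; linarith)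
      (by rw [hadd]; linarith [hs.2])]
    norm_num

end Pool.Agent.Helper43.IR
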