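import Pool.Agent.Helper33.IR.Goals

/-! # Packet IR-ENUM -/

set_option autoImplicit false

namespace Pool.Agent.Helper43.IR

open Pool.Agent.Helper33.IR

theorem pad_sum (n m : ℕ) (g : Fin n → ℝ) :
    ∑ i : Fin (n + m), (if h : i.val < n then g ⟨i.val, h⟩ else 0) = ∑ i, g i := by
  rw [Fin.sum_univ_add]
  simp

theorem enumAux (S : Finset ℕ) (L : ℕ) (hL : S.card ≤ L) :
    ∃ (e : Fin L → ℕ) (act : Fin L → Bool), (∀ i, act i = true → e i ∈ S) ∧
      (∀ i, act i = false → e i = 0) ∧
      ∀ f : ℕ → ℝ, ∑ b ∈ S, f b = ∑ i, if act i = true then f (e i) else 0 := by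
  obtain ⟨m, rfl⟩ := Nat.exists_eq_add_of_le hL
  refine ⟨fun i => if h : i.val < S.card then (S.equivFin.symm ⟨i.val, h⟩ : ℕ) else 0,
    fun i => decide (i.val < S.card), ?_, ?_, ?_⟩
  · intro i hi
    have h : i.val < S.card := by simpa using hi
    simp only [h, dif_pos]
    exact (S.equivFin.symm ⟨i.val, h⟩).2
  · intro i hi
    have h : ¬ i.val < S.card := by simpa using hi
    simp only [h, dif_neg, not_false_eq_true]
  · intro f
    have h1 : ∑ b ∈ S, f b = ∑ i : Fin S.card, f (S.equivFin.symm i : ℕ) := by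
      rw [← Finset.sum_coe_sort S f]
      exact (Equiv.sum_comp S.equivFin.symm (fun x : S => f x)).symm
    rw [h1, ← pad_sum S.card m]
    refine Finset.sum_congr rfl fun i _ => ?_
    by_cases h : i.val < S.card
    · simp [h]
    · simp [h]

/-- packet ENUM0 -/
theorem gENUM0 : G_ENUM0 := fun K S hS => enumAux S (K + 1) (by omega)

/-- packet ENUM -/
theorem gENUM : G_ENUM := by
  intro K S b0 hb hS
  have hc : (S.erase b0).card ≤ K := by
    rw [Finset.card_erase_of_mem hb]; omega
  obtain ⟨e, act, h1, h2, h3⟩ := enumAux (S.erase b0) K hc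
  refine ⟨Fin.cons b0 e, Fin.cons true act, rfl, rfl, ?_, ?_, ?_, ?_⟩
  · intro i
    refine Fin.cases ?_ (fun j => ?_) i
    · intro _; exact hb
    · intro hj
      simp only [Fin.cons_succ] at hj ⊢
      exact Finset.mem_of_mem_erase (h1 j hj)
  · intro i
    refine Fin.cases ?_ (fun j => ?_) i
    · intro h; simp at h
    · intro hj
      simp only [Fin.cons_succ] at hj ⊢
      exact h2 j hj
  · intro i
    refine Fin.cases ?_ (fun j => ?_) i
    · intro h; exact absurd rfl h
    · intro _ hj
      simp only [Fin.cons_succ] at hj ⊢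
      exact Finset.ne_of_mem_erase (h1 j hj)
  · intro f
    rw [Fin.sum_univ_succ, ← Finset.add_sum_erase S f hb, h3 f]
    simp only [Fin.cons_zero, Fin.cons_succ, if_true]

end Pool.Agent.Helper43.IR
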